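import Mathlib

set_option autoImplicit false

/-!
# Oscillatory integrals over a box
-/

namespace Pool.Agent.Y959.Gen

open MeasureTheory Finset

theorem int_one (Λ θ : ℝ) (hΛ : 0 < Λ) :
    ‖∫ x in Set.Icc Λ (2 * Λ), Complex.exp ((θ * x : ℝ) * Complex.I)‖ ≤ Λ := by
  have h := norm_setIntegral_le_of_norm_le_const (μ := volume) (s := Set.Icc Λ (2 * Λ)) (C := 1)
    (f := fun x : ℝ => Complex.exp ((θ * x : ℝ) * Complex.I))
    (by rw [Real.volume_Icc]; exact ENNReal.ofReal_lt_top)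
    (fun x _ => (Complex.norm_exp_ofReal_mul_I _).le)
  refine h.trans (le_of_eq ?_)
  rw [one_mul, Measure.real, Real.volume_Icc, ENNReal.toReal_ofReal (by linarith)]
  ring

theorem int_one' (Λ θ : ℝ) (hΛ : 0 < Λ) (hθ : θ ≠ 0) :
    ‖∫ x in Set.Icc Λ (2 * Λ), Complex.exp ((θ * x : ℝ) * Complex.I)‖ ≤ 2 / |θ| := by
  rw [integral_Icc_eq_integral_Ioc, ← intervalIntegral.integral_of_le (by linarith)]
  have hc : (θ : ℂ) * Complex.I ≠ 0 :=
    mul_ne_zero (by exact_mod_cast hθ) Complex.I_ne_zero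
  have h := integral_exp_mul_complex (a := Λ) (b := 2 * Λ) hc
  have e : ∀ x : ℝ, Complex.exp ((θ * x : ℝ) * Complex.I) =
      Complex.exp ((θ : ℂ) * Complex.I * x) := by
    intro x
    congr 1
    push_cast
    ring
  simp only [e]
  rw [h, norm_div, norm_mul, Complex.norm_I, mul_one, Complex.norm_real, Real.norm_eq_abs]
  apply div_le_div_of_nonneg_right _ (abs_nonneg θ)
  refine (norm_sub_le _ _).trans ?_
  have e2 : ∀ y : ℝ, ‖Complex.exp ((θ : ℂ) * Complex.I * (y : ℂ))‖ = 1 := by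
    intro y
    rw [← e]
    exact Complex.norm_exp_ofReal_mul_I _
  have := e2 (2 * Λ)
  rw [this, e2]
  norm_num

variable {D : Type*} [Fintype D]

/-- The box `[Λ, 2Λ]^D`. -/
def box (D : Type*) (Λ : ℝ) : Set (D → ℝ) := Set.univ.pi (fun _ => Set.Icc Λ (2 * Λ))

theorem box_meas (Λ : ℝ) : MeasurableSet (box D Λ) :=
  MeasurableSet.univ_pi fun _ => measurableSet_Icc

theorem box_compact (Λ : ℝ) : IsCompact (box D Λ) :=
  isCompact_univ_pi fun _ => isCompact_Icc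

theorem int_box_eq (Λ : ℝ) (θ : D → ℝ) (c : ℝ) :
    ∫ x in box D Λ, Complex.exp ((((∑ i, θ i * x i) + c : ℝ) : ℂ) * Complex.I) =
      (∏ i, ∫ y in Set.Icc Λ (2 * Λ), Complex.exp ((θ i * y : ℝ) * Complex.I)) *
        Complex.exp ((c : ℂ) * Complex.I) := by
  unfold box
  rw [volume_pi, Measure.restrict_pi_pi]
  have e : ∀ x : D → ℝ, Complex.exp ((((∑ i, θ i * x i) + c : ℝ) : ℂ) * Complex.I) =
      (∏ i, Complex.exp ((θ i * x i : ℝ) * Complex.I)) * Complex.exp ((c : ℂ) * Complex.I) := by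
    intro x
    rw [← Complex.exp_sum, ← Complex.exp_add]
    congr 1
    push_cast
    rw [add_mul, sum_mul]
  simp only [e]
  rw [integral_mul_const]
  congr 1
  exact integral_fintype_prod_eq_prod (fun i (y : ℝ) => Complex.exp ((θ i * y : ℝ) * Complex.I))

theorem int_box (Λ : ℝ) (hΛ : 0 < Λ) (θ : D → ℝ) (c : ℝ) :
    ‖∫ x in box D Λ, Complex.exp ((((∑ i, θ i * x i) + c : ℝ) : ℂ) * Complex.I)‖ ≤
      Λ ^ Fintype.card D := by
  rw [int_box_eq, norm_mul, Complex.norm_exp_ofReal_mul_I, mul_one, norm_prod]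
  calc ∏ i, ‖∫ y in Set.Icc Λ (2 * Λ), Complex.exp ((θ i * y : ℝ) * Complex.I)‖
      ≤ ∏ _i : D, Λ := prod_le_prod (fun _ _ => norm_nonneg _) fun i _ => int_one Λ (θ i) hΛ
    _ = Λ ^ Fintype.card D := by rw [prod_const, card_univ]

theorem int_box' [DecidableEq D] (Λ : ℝ) (hΛ : 0 < Λ) (θ : D → ℝ) (c : ℝ) (i₀ : D)
    (hθ : θ i₀ ≠ 0) :
    ‖∫ x in box D Λ, Complex.exp ((((∑ i, θ i * x i) + c : ℝ) : ℂ) * Complex.I)‖ ≤
      Λ ^ Fintype.card D * (2 / (Λ * |θ i₀|)) := by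
  rw [int_box_eq, norm_mul, Complex.norm_exp_ofReal_mul_I, mul_one, norm_prod]
  have hθ' : 0 < |θ i₀| := abs_pos.2 hθ
  calc ∏ i, ‖∫ y in Set.Icc Λ (2 * Λ), Complex.exp ((θ i * y : ℝ) * Complex.I)‖
      ≤ ∏ i : D, (Λ * (if i = i₀ then 2 / (Λ * |θ i₀|) else 1)) := by
        apply prod_le_prod (fun _ _ => norm_nonneg _)
        intro i _
        by_cases hi : i = i₀
        · rw [if_pos hi, hi]
          refine (int_one' Λ (θ i₀) hΛ hθ).trans (le_of_eq ?_)
          field_simp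
        · rw [if_neg hi, mul_one]
          exact int_one Λ (θ i) hΛ
    _ = Λ ^ Fintype.card D * (2 / (Λ * |θ i₀|)) := by
        rw [prod_mul_distrib, prod_const, card_univ, prod_ite_eq', if_pos (mem_univ _)]

end Pool.Agent.Y959.Gen
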