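import Mathlib

set_option autoImplicit false

/-!
# Information sets and the counting of solutions of linear systems

A finite-dimensional space of functions is determined by as many values as its dimension.
-/

namespace Pool.Agent.Y959.Gen

open Module Finset

/-- A space of functions of dimension at most `n` is determined by at most `n` values. -/
theorem info_set {K X : Type*} [Field K] (n : ℕ) : ∀ (V : Submodule K (X → K))
    [FiniteDimensional K V], finrank K V ≤ n →
    ∃ J : Finset X, J.card ≤ n ∧ ∀ f ∈ V, (∀ x ∈ J, f x = 0) → f = 0 := by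
  classical
  induction n with
  | zero =>
    intro V _ hn
    refine ⟨∅, by simp, ?_⟩
    intro f hf _
    have : V = ⊥ := Submodule.finrank_eq_zero.1 (by omega)
    rw [this] at hf
    simpa using hf
  | succ n ih =>
    intro V _ hn
    by_cases hV : V = ⊥
    · refine ⟨∅, by simp, ?_⟩
      intro f hf _
      rw [hV] at hf
      simpa using hf
    · obtain ⟨f₀, hf₀, hne⟩ := Submodule.exists_mem_ne_zero_of_ne_bot hV
      obtain ⟨x₀, hx₀⟩ : ∃ x, f₀ x ≠ 0 := by
        by_contra hcon
        push Not at hcon
        exact hne (funext hcon)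
      set V' : Submodule K (X → K) := V ⊓ LinearMap.ker (LinearMap.proj (R := K) (φ := fun _ : X => K) x₀)
        with hV'
      have hlt : V' < V := by
        refine lt_of_le_of_ne inf_le_left ?_
        intro heq
        have h1 : f₀ ∈ V' := heq ▸ hf₀
        rw [hV'] at h1
        exact hx₀ (by simpa using h1.2)
      have : FiniteDimensional K V' := Submodule.finiteDimensional_of_le hlt.le
      have hfr := Submodule.finrank_lt_finrank_of_lt hlt
      obtain ⟨J, hJ, hJ2⟩ := ih V' (by omega)
      refine ⟨insert x₀ J, (card_insert_le _ _).trans (by omega), ?_⟩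
      intro f hf hfx
      apply hJ2 f
      · rw [hV']
        refine ⟨hf, ?_⟩
        simpa using hfx x₀ (mem_insert_self _ _)
      · intro x hx
        exact hfx x (mem_insert_of_mem hx)

/-- the number of solutions in `A^k` (`A` a finite set of integer vectors) of the system
`∑ a_j w_j = 0` is at most `|A|^(k - rank w)`. -/
theorem card_solutions {D Y : Type*} [Fintype D] [DecidableEq D] {k : ℕ}
    (A : Finset (D → ℤ)) (w : Fin k → (Y → ℚ)) (hA : 1 ≤ A.card)
    (S : Finset (Fin k → (D → ℤ)))
    (hS : ∀ a ∈ S, (∀ j, a j ∈ A) ∧ ∀ i : D, ∑ j, ((a j i : ℤ) : ℚ) • w j = 0) (r : ℕ)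
    (hr : r ≤ finrank ℚ (Submodule.span ℚ (Set.range w))) :
    S.card ≤ A.card ^ (k - r) := by
  classical
  set Φ : (Fin k → ℚ) →ₗ[ℚ] (Y → ℚ) := Fintype.linearCombination ℚ w with hΦ
  have hrange : LinearMap.range Φ = Submodule.span ℚ (Set.range w) :=
    Fintype.range_linearCombination ℚ w
  have hfin := LinearMap.finrank_range_add_finrank_ker Φ
  rw [hrange] at hfin
  have hk : finrank ℚ (Fin k → ℚ) = k := by simp
  rw [hk] at hfin
  obtain ⟨J, hJ, hJ2⟩ := info_set (k - r) (LinearMap.ker Φ) (by omega)
  -- restriction to `J` is injective on `S`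
  have hinj : Set.InjOn (fun a : Fin k → (D → ℤ) => fun j : J => a j) (S : Set (Fin k → (D → ℤ))) := by
    intro a ha a' ha' heq
    funext j i
    have h1 : (fun j => ((a j i : ℤ) : ℚ) - ((a' j i : ℤ) : ℚ)) = (0 : Fin k → ℚ) := by
      apply hJ2
      · rw [LinearMap.mem_ker, hΦ, Fintype.linearCombination_apply]
        simp only [sub_smul, sum_sub_distrib]
        rw [(hS a ha).2 i, (hS a' ha').2 i, sub_zero]
      · intro j hj
        have := congrFun heq ⟨j, hj⟩
        simp only at this
        rw [this, sub_self]
    have h2 := congrFun h1 j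
    simp only [Pi.zero_apply, sub_eq_zero] at h2
    exact_mod_cast h2
  have hmaps : ∀ a ∈ S, (fun j : J => a j) ∈ Fintype.piFinset (fun _ : J => A) := by
    intro a ha
    rw [Fintype.mem_piFinset]
    intro j
    exact (hS a ha).1 j
  have hcard := card_le_card_of_injOn (s := S) (t := Fintype.piFinset (fun _ : J => A))
    (fun a : Fin k → (D → ℤ) => fun j : J => a j) (fun a ha => hmaps a ha) hinj
  rw [Fintype.card_piFinset] at hcard
  simp only [prod_const, card_univ, Fintype.card_coe] at hcard
  exact hcard.trans (Nat.pow_le_pow_right hA hJ)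

end Pool.Agent.Y959.Gen
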