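import Mathlib
import Pool.Agent.Y959.Gen.Info

set_option autoImplicit false

/-!
# Paths of integers, weighted by the multiplicative rank of the quotients of consecutive terms
-/

namespace Pool.Agent.Y959.Gen

open Module Finset

/-- The vector of the exponents of the primes in `n`. -/
noncomputable def v (n : ℕ) : ℕ → ℚ := fun p => (n.factorization p : ℚ)

theorem v_inj {m n : ℕ} (hm : m ≠ 0) (hn : n ≠ 0) (h : v m = v n) : m = n := by
  apply Nat.eq_of_factorization_eq hm hn
  intro p
  have := congrFun h p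
  unfold v at this
  exact_mod_cast this

theorem fact_lt {M n p : ℕ} (h1 : 1 ≤ n) (h2 : n ≤ M) : n.factorization p < Nat.log 2 M + 1 := by
  by_cases hp : p.Prime
  · have h3 : p ^ n.factorization p ≤ n := Nat.ordProj_le p (by omega)
    have h4 : 2 ^ n.factorization p ≤ p ^ n.factorization p := Nat.pow_le_pow_left hp.two_le _
    have h5 : 2 ^ n.factorization p ≤ M := by omega
    have h6 := Nat.le_log_of_pow_le (by norm_num : 1 < 2) h5
    omega
  · rw [Nat.factorization_eq_zero_of_not_prime n hp]
    omega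

/-- A coset of a space of dimension `≤ s` contains the exponent vectors of few integers. -/
theorem card_coset (M s : ℕ) (I : Finset ℕ) (hI : ∀ n ∈ I, 1 ≤ n ∧ n ≤ M)
    (V : Submodule ℚ (ℕ → ℚ)) [FiniteDimensional ℚ V] (hV : finrank ℚ V ≤ s) (c : ℕ → ℚ)
    (S : Finset I) (hS : ∀ n ∈ S, v (n : ℕ) - c ∈ V) :
    S.card ≤ (Nat.log 2 M + 1) ^ s := by
  classical
  obtain ⟨J, hJ, hJ2⟩ := info_set s V hV
  have hcard := card_le_card_of_injOn (s := S)
    (t := Fintype.piFinset (fun _ : J => range (Nat.log 2 M + 1)))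
    (fun (n : I) => fun p : J => (n : ℕ).factorization p)
    (by
      intro n _
      rw [mem_coe, Fintype.mem_piFinset]
      intro p
      rw [mem_range]
      exact fact_lt (hI n n.2).1 (hI n n.2).2)
    (by
      intro n hn n' hn' heq
      have h1 : v (n : ℕ) - v (n' : ℕ) = 0 := by
        apply hJ2
        · have := V.sub_mem (hS n hn) (hS n' hn')
          simpa using this
        · intro p hp
          have := congrFun heq ⟨p, hp⟩
          simp only at this
          simp only [Pi.sub_apply, v]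
          rw [this, sub_self]
      have h2 := v_inj (by have := (hI n n.2).1; omega) (by have := (hI n' n'.2).1; omega)
        (sub_eq_zero.1 h1)
      exact Subtype.ext h2)
  rw [Fintype.card_piFinset] at hcard
  simp only [prod_const, card_univ, Fintype.card_coe, card_range] at hcard
  exact hcard.trans (Nat.pow_le_pow_right (by omega) hJ)

/-- The differences of the exponent vectors along a path. -/
noncomputable def w {m : ℕ} (n : Fin (m + 1) → ℕ) : Fin m → (ℕ → ℚ) :=
  fun j => v (n j.succ) - v (n j.castSucc)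

/-- Their span. -/
noncomputable def Sp {m : ℕ} (n : Fin (m + 1) → ℕ) : Submodule ℚ (ℕ → ℚ) :=
  Submodule.span ℚ (Set.range (w n))

instance {m : ℕ} (n : Fin (m + 1) → ℕ) : FiniteDimensional ℚ (Sp n) :=
  FiniteDimensional.span_of_finite ℚ (Set.finite_range _)

theorem finrank_Sp_le {m : ℕ} (n : Fin (m + 1) → ℕ) : finrank ℚ (Sp n) ≤ m := by
  have h : finrank ℚ (Submodule.span ℚ (Set.range (w n))) ≤ Fintype.card (Fin m) :=
    finrank_range_le_card (w n)
  rwa [Fintype.card_fin] at h

theorem Sp_snoc {m : ℕ} (n : Fin (m + 1) → ℕ) (x : ℕ) :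
    Sp (Fin.snoc n x : Fin (m + 2) → ℕ) =
      Submodule.span ℚ {v x - v (n (Fin.last m))} ⊔ Sp n := by
  unfold Sp
  rw [← Submodule.span_insert]
  congr 1
  ext y
  simp only [Set.mem_range, Set.mem_insert_iff]
  constructor
  · rintro ⟨j, rfl⟩
    refine Fin.lastCases ?_ ?_ j
    · left
      unfold w
      simp only [Fin.succ_last, Fin.snoc_last, Fin.snoc_castSucc]
    · intro j
      right
      refine ⟨j, ?_⟩
      unfold w
      have e1 : (Fin.snoc n x : Fin (m + 2) → ℕ) (j.castSucc).succ = n j.succ := by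
        rw [Fin.succ_castSucc]
        exact Fin.snoc_castSucc (α := fun _ => ℕ) x n j.succ
      have e2 : (Fin.snoc n x : Fin (m + 2) → ℕ) (j.castSucc).castSucc = n j.castSucc :=
        Fin.snoc_castSucc (α := fun _ => ℕ) x n j.castSucc
      rw [e1, e2]
  · rintro (rfl | ⟨j, rfl⟩)
    · refine ⟨Fin.last m, ?_⟩
      unfold w
      simp only [Fin.succ_last, Fin.snoc_last, Fin.snoc_castSucc]
    · refine ⟨j.castSucc, ?_⟩
      unfold w
      have e1 : (Fin.snoc n x : Fin (m + 2) → ℕ) (j.castSucc).succ = n j.succ := by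
        rw [Fin.succ_castSucc]
        exact Fin.snoc_castSucc (α := fun _ => ℕ) x n j.succ
      have e2 : (Fin.snoc n x : Fin (m + 2) → ℕ) (j.castSucc).castSucc = n j.castSucc :=
        Fin.snoc_castSucc (α := fun _ => ℕ) x n j.castSucc
      rw [e1, e2]

/-- The weighted number of paths. -/
theorem path_sum (M : ℕ) (I : Finset ℕ) (hI : ∀ n ∈ I, 1 ≤ n ∧ n ≤ M) (R : ℕ) (hR : 1 ≤ R) (m : ℕ) :
    ∑ n : Fin (m + 1) → I, R ^ (m - finrank ℚ (Sp (fun j => (n j : ℕ)))) ≤
      I.card * ∏ j ∈ range m, (I.card + R * (Nat.log 2 M + 1) ^ j) := by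
  classical
  induction m with
  | zero =>
    simp
  | succ m ih =>
    have hsplit : ∑ n : Fin (m + 2) → I, R ^ (m + 1 - finrank ℚ (Sp (fun j => (n j : ℕ)))) =
        ∑ n : Fin (m + 1) → I, ∑ x : I,
          R ^ (m + 1 - finrank ℚ (Sp (Fin.snoc (fun j => (n j : ℕ)) (x : ℕ) : Fin (m + 2) → ℕ))) := by
      rw [← Fintype.sum_equiv (Fin.snocEquiv (fun _ : Fin (m + 2) => (I : Type)))
        (fun q => R ^ (m + 1 - finrank ℚ (Sp (Fin.snoc (fun j => (q.2 j : ℕ)) (q.1 : ℕ) :
          Fin (m + 2) → ℕ)))) _ (by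
            intro q
            have e : (Fin.snoc (fun j => (q.2 j : ℕ)) (q.1 : ℕ) : Fin (m + 2) → ℕ) =
                fun j => ((Fin.snocEquiv (fun _ : Fin (m + 2) => (I : Type)) q j : I) : ℕ) := by
              funext j
              refine Fin.lastCases ?_ ?_ j
              · simp [Fin.snocEquiv]
              · intro j
                simp [Fin.snocEquiv]
            rw [e])]
      rw [Fintype.sum_prod_type, sum_comm]
    rw [hsplit]
    have hone : ∀ n : Fin (m + 1) → I, ∑ x : I,
          R ^ (m + 1 - finrank ℚ (Sp (Fin.snoc (fun j => (n j : ℕ)) (x : ℕ) : Fin (m + 2) → ℕ))) ≤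
        R ^ (m - finrank ℚ (Sp (fun j => (n j : ℕ)))) * (I.card + R * (Nat.log 2 M + 1) ^ m) := by
      intro n
      set n' : Fin (m + 1) → ℕ := fun j => (n j : ℕ) with hn'
      set s := finrank ℚ (Sp n') with hs
      have hsm : s ≤ m := finrank_Sp_le n'
      set S : Finset I := univ.filter (fun x : I => v (x : ℕ) - v (n' (Fin.last m)) ∈ Sp n') with hS
      have hScard : S.card ≤ (Nat.log 2 M + 1) ^ m := by
        apply card_coset M m I hI (Sp n') hsm (v (n' (Fin.last m))) S
        intro x hx
        rw [hS, mem_filter] at hx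
        exact hx.2
      have hle : ∀ x : I,
          R ^ (m + 1 - finrank ℚ (Sp (Fin.snoc n' (x : ℕ) : Fin (m + 2) → ℕ))) ≤
          (if x ∈ S then R * R ^ (m - s) else 0) + R ^ (m - s) := by
        intro x
        by_cases hx : x ∈ S
        · rw [if_pos hx]
          have hx2 : v (x : ℕ) - v (n' (Fin.last m)) ∈ Sp n' := by
            rw [hS, mem_filter] at hx
            exact hx.2
          have hSp : Sp (Fin.snoc n' (x : ℕ) : Fin (m + 2) → ℕ) = Sp n' := by
            rw [Sp_snoc, sup_eq_right, Submodule.span_singleton_le_iff_mem]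
            exact hx2
          rw [hSp, ← hs, ← pow_succ', show m - s + 1 = m + 1 - s by omega]
          exact Nat.le_add_right _ _
        · rw [if_neg hx, zero_add]
          apply Nat.pow_le_pow_right hR
          have hx2 : v (x : ℕ) - v (n' (Fin.last m)) ∉ Sp n' := by
            intro h
            apply hx
            rw [hS, mem_filter]
            exact ⟨mem_univ _, h⟩
          have hlt : Sp n' < Sp (Fin.snoc n' (x : ℕ) : Fin (m + 2) → ℕ) := by
            rw [Sp_snoc]
            refine lt_of_le_of_ne le_sup_right ?_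
            intro heq
            apply hx2
            rw [heq]
            exact Submodule.mem_sup_left (Submodule.mem_span_singleton_self _)
          have := Submodule.finrank_lt_finrank_of_lt hlt
          omega
      calc ∑ x : I, R ^ (m + 1 - finrank ℚ (Sp (Fin.snoc n' (x : ℕ) : Fin (m + 2) → ℕ)))
          ≤ ∑ x : I, ((if x ∈ S then R * R ^ (m - s) else 0) + R ^ (m - s)) :=
            sum_le_sum fun x _ => hle x
        _ = S.card * (R * R ^ (m - s)) + I.card * R ^ (m - s) := by
            rw [sum_add_distrib, sum_ite_mem, univ_inter, sum_const, sum_const, smul_eq_mul,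
              smul_eq_mul, card_univ, Fintype.card_coe]
        _ ≤ (Nat.log 2 M + 1) ^ m * (R * R ^ (m - s)) + I.card * R ^ (m - s) := by
            gcongr
        _ = R ^ (m - s) * (I.card + R * (Nat.log 2 M + 1) ^ m) := by ring
    calc ∑ n : Fin (m + 1) → I, ∑ x : I,
          R ^ (m + 1 - finrank ℚ (Sp (Fin.snoc (fun j => (n j : ℕ)) (x : ℕ) : Fin (m + 2) → ℕ)))
        ≤ ∑ n : Fin (m + 1) → I, R ^ (m - finrank ℚ (Sp (fun j => (n j : ℕ)))) *
            (I.card + R * (Nat.log 2 M + 1) ^ m) := sum_le_sum fun n _ => hone n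
      _ = (∑ n : Fin (m + 1) → I, R ^ (m - finrank ℚ (Sp (fun j => (n j : ℕ))))) *
            (I.card + R * (Nat.log 2 M + 1) ^ m) := by rw [sum_mul]
      _ ≤ (I.card * ∏ j ∈ range m, (I.card + R * (Nat.log 2 M + 1) ^ j)) *
            (I.card + R * (Nat.log 2 M + 1) ^ m) := Nat.mul_le_mul_right _ ih
      _ = _ := by rw [prod_range_succ, mul_assoc]

/-- The differences along the closed path. -/
noncomputable def wc {m : ℕ} (n : Fin (m + 1) → ℕ) : Fin (m + 1) → (ℕ → ℚ) :=
  fun j => v (n (j + 1)) - v (n j)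

theorem finrank_le_wc {m : ℕ} (n : Fin (m + 1) → ℕ) :
    finrank ℚ (Sp n) ≤ finrank ℚ (Submodule.span ℚ (Set.range (wc n))) := by
  have : FiniteDimensional ℚ (Submodule.span ℚ (Set.range (wc n))) :=
    FiniteDimensional.span_of_finite ℚ (Set.finite_range _)
  apply Submodule.finrank_mono
  apply Submodule.span_mono
  rintro _ ⟨j, rfl⟩
  refine ⟨j.castSucc, ?_⟩
  unfold wc w
  rw [Fin.coeSucc_eq_succ]

/-- The number of exact solutions. -/
theorem exact_count {D : Type*} [Fintype D] [DecidableEq D] (M : ℕ) (I : Finset ℕ)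
    (hI : ∀ n ∈ I, 1 ≤ n ∧ n ≤ M) (A : Finset (D → ℤ)) (hA : 1 ≤ A.card) (m : ℕ)
    (S : Finset ((Fin (m + 1) → I) × (Fin (m + 1) → A)))
    (hS : ∀ q ∈ S, ∀ i : D,
      ∑ j, ((((q.2 j : A) : D → ℤ) i : ℤ) : ℚ) • wc (fun j => ((q.1 j : I) : ℕ)) j = 0) :
    S.card ≤ A.card * (I.card * ∏ j ∈ range m, (I.card + A.card * (Nat.log 2 M + 1) ^ j)) := by
  classical
  have hfib : S.card ≤ ∑ n : Fin (m + 1) → I,
      A.card ^ (m + 1 - finrank ℚ (Sp (fun j => ((n j : I) : ℕ)))) := by
    rw [card_eq_sum_card_fiberwise (f := fun q : (Fin (m + 1) → I) × (Fin (m + 1) → A) => q.1)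
      (t := univ) (fun _ _ => mem_coe.2 (mem_univ _))]
    apply sum_le_sum
    intro n _
    set S' : Finset (Fin (m + 1) → (D → ℤ)) :=
      (S.filter (fun q => q.1 = n)).image (fun q => fun j => ((q.2 j : A) : D → ℤ)) with hS'
    have hc : (S.filter (fun q => q.1 = n)).card = S'.card := by
      rw [hS', card_image_of_injOn]
      intro q hq q' hq' heq
      have hq1 := (mem_filter.1 (mem_coe.1 hq)).2
      have hq'1 := (mem_filter.1 (mem_coe.1 hq')).2
      apply Prod.ext
      · rw [hq1, hq'1]
      · funext j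
        exact Subtype.ext (congrFun heq j)
    rw [hc]
    apply card_solutions A (wc (fun j => ((n j : I) : ℕ))) hA S'
    · intro a ha
      rw [hS', mem_image] at ha
      obtain ⟨q, hq, rfl⟩ := ha
      rw [mem_filter] at hq
      refine ⟨fun j => (q.2 j).2, fun i => ?_⟩
      have := hS q hq.1 i
      rw [hq.2] at this
      exact this
    · exact finrank_le_wc _
  refine hfib.trans ?_
  calc ∑ n : Fin (m + 1) → I,
      A.card ^ (m + 1 - finrank ℚ (Sp (fun j => ((n j : I) : ℕ))))
      = ∑ n : Fin (m + 1) → I, A.card *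
          A.card ^ (m - finrank ℚ (Sp (fun j => ((n j : I) : ℕ)))) := by
        apply sum_congr rfl
        intro n _
        have := finrank_Sp_le (fun j => ((n j : I) : ℕ))
        rw [← pow_succ']
        congr 1
        omega
    _ = A.card * ∑ n : Fin (m + 1) → I,
          A.card ^ (m - finrank ℚ (Sp (fun j => ((n j : I) : ℕ)))) := by rw [mul_sum]
    _ ≤ _ := Nat.mul_le_mul_left _ (path_sum M I hI A.card hA m)

end Pool.Agent.Y959.Gen
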