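import Mathlib
import Pool.Agent.Y959.Gen.Count

set_option autoImplicit false

/-!
# Integral linear forms in the logarithms of integers, trivial lower bound
-/

namespace Pool.Agent.Y959.Gen

open Finset

theorem v_mul {a b : ℕ} (ha : a ≠ 0) (hb : b ≠ 0) : v (a * b) = v a + v b := by
  funext p
  unfold v
  rw [Nat.factorization_mul ha hb]
  simp

theorem v_pow (a k : ℕ) : v (a ^ k) = (k : ℚ) • v a := by
  funext p
  unfold v
  rw [Nat.factorization_pow]
  simp

theorem v_one : v 1 = 0 := by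
  funext p
  simp [v]

theorem v_prod {ι : Type*} (s : Finset ι) (f : ι → ℕ) (hf : ∀ i ∈ s, f i ≠ 0) :
    v (∏ i ∈ s, f i) = ∑ i ∈ s, v (f i) := by
  classical
  induction s using Finset.induction_on with
  | empty => simp [v_one]
  | insert a s ha ih =>
    rw [prod_insert ha, sum_insert ha, v_mul (hf a (mem_insert_self _ _))
      (prod_ne_zero_iff.2 fun i hi => hf i (mem_insert_of_mem hi)),
      ih fun i hi => hf i (mem_insert_of_mem hi)]

/-- distinct positive integers have logarithms at distance at least the inverse of the larger. -/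
theorem log_dist {P Q K : ℕ} (hP : 1 ≤ P) (hQ : 1 ≤ Q) (hPK : P ≤ K) (hQK : Q ≤ K) (hne : P ≠ Q) :
    1 ≤ (K : ℝ) * |Real.log P - Real.log Q| := by
  wlog hlt : Q < P generalizing P Q
  · rw [abs_sub_comm]
    exact this hQ hP hQK hPK hne.symm (by omega)
  have hP0 : (0 : ℝ) < P := by exact_mod_cast hP
  have hQ0 : (0 : ℝ) < Q := by exact_mod_cast hQ
  have h1 : Real.log P - Real.log Q = Real.log ((P : ℝ) / Q) := (Real.log_div hP0.ne' hQ0.ne').symm
  have h2 := Real.one_sub_inv_le_log_of_pos (div_pos hP0 hQ0)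
  rw [inv_div] at h2
  have h3 : (1 : ℝ) / P ≤ 1 - Q / P := by
    rw [le_sub_iff_add_le, ← add_div, div_le_one hP0]
    have : Q + 1 ≤ P := hlt
    have : (Q : ℝ) + 1 ≤ P := by exact_mod_cast this
    linarith
  have h4 : (1 : ℝ) / P ≤ |Real.log P - Real.log Q| := by
    rw [h1]
    exact (h3.trans h2).trans (le_abs_self _)
  calc (1 : ℝ) = (P : ℝ) * (1 / P) := by field_simp
    _ ≤ (K : ℝ) * |Real.log P - Real.log Q| := by
        apply mul_le_mul (by exact_mod_cast hPK) h4 (by positivity) (by positivity)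

theorem log_form {m : ℕ} (n : Fin (m + 1) → ℕ) (M B : ℕ) (h1 : ∀ j, 1 ≤ n j) (h2 : ∀ j, n j ≤ M)
    (c : Fin (m + 1) → ℤ) (hc : ∀ j, |c j| ≤ B) :
    (∑ j, (c j : ℚ) • wc n j = 0 ∧
      ∑ j, (c j : ℝ) * (Real.log (n (j + 1)) - Real.log (n j)) = 0) ∨
    1 ≤ (M : ℝ) ^ ((m + 1) * B) *
      |∑ j, (c j : ℝ) * (Real.log (n (j + 1)) - Real.log (n j))| := by
  classical
  have hM : 1 ≤ M := (h1 0).trans (h2 0)
  set P : ℕ := ∏ j, (n (j + 1) ^ (c j).toNat * n j ^ (-c j).toNat) with hP
  set Q : ℕ := ∏ j, (n (j + 1) ^ (-c j).toNat * n j ^ (c j).toNat) with hQ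
  have hpos : ∀ j (e : ℕ), 0 < n j ^ e := fun j e => pow_pos (h1 j) e
  have hP1 : 1 ≤ P := Nat.one_le_iff_ne_zero.2 (prod_ne_zero_iff.2 fun j _ =>
    (Nat.mul_pos (hpos _ _) (hpos _ _)).ne')
  have hQ1 : 1 ≤ Q := Nat.one_le_iff_ne_zero.2 (prod_ne_zero_iff.2 fun j _ =>
    (Nat.mul_pos (hpos _ _) (hpos _ _)).ne')
  have hB : ∀ j, (c j).toNat + (-c j).toNat ≤ B := by
    intro j
    have := abs_le.1 (hc j)
    omega
  have hfac : ∀ j j' (e e' : ℕ), e + e' ≤ B → n j ^ e * n j' ^ e' ≤ M ^ B := by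
    intro j j' e e' he
    calc n j ^ e * n j' ^ e' ≤ M ^ e * M ^ e' :=
          Nat.mul_le_mul (Nat.pow_le_pow_left (h2 j) _) (Nat.pow_le_pow_left (h2 j') _)
      _ = M ^ (e + e') := (pow_add _ _ _).symm
      _ ≤ M ^ B := Nat.pow_le_pow_right hM he
  have hPK : P ≤ M ^ ((m + 1) * B) := by
    calc P ≤ ∏ _j : Fin (m + 1), M ^ B := prod_le_prod' fun j _ => hfac _ _ _ _ (hB j)
      _ = M ^ ((m + 1) * B) := by
          rw [prod_const, card_univ, Fintype.card_fin, ← pow_mul, mul_comm]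
  have hQK : Q ≤ M ^ ((m + 1) * B) := by
    calc Q ≤ ∏ _j : Fin (m + 1), M ^ B := prod_le_prod' fun j _ => hfac _ _ _ _ (by
            have := hB j; omega)
      _ = M ^ ((m + 1) * B) := by
          rw [prod_const, card_univ, Fintype.card_fin, ← pow_mul, mul_comm]
  have htoNat : ∀ j, (((c j).toNat : ℤ) : ℝ) - (((-c j).toNat : ℤ) : ℝ) = (c j : ℝ) := by
    intro j
    have : ((c j).toNat : ℤ) - ((-c j).toNat : ℤ) = c j := by omega
    exact_mod_cast this
  have htoNatQ : ∀ j, (((c j).toNat : ℕ) : ℚ) - (((-c j).toNat : ℕ) : ℚ) = (c j : ℚ) := by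
    intro j
    have : ((c j).toNat : ℤ) - ((-c j).toNat : ℤ) = c j := by omega
    exact_mod_cast this
  have hlogP : Real.log P = ∑ j, (((c j).toNat : ℝ) * Real.log (n (j + 1)) +
      ((-c j).toNat : ℝ) * Real.log (n j)) := by
    rw [hP]
    push_cast
    rw [Real.log_prod]
    · apply sum_congr rfl
      intro j _
      have e1 : (0 : ℝ) < (n (j + 1) : ℝ) ^ (c j).toNat := by
        have := h1 (j + 1)
        have : (0 : ℝ) < n (j + 1) := by exact_mod_cast this
        positivity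
      have e2 : (0 : ℝ) < (n j : ℝ) ^ (-c j).toNat := by
        have := h1 j
        have : (0 : ℝ) < n j := by exact_mod_cast this
        positivity
      rw [Real.log_mul e1.ne' e2.ne', Real.log_pow, Real.log_pow]
    · intro j _
      have e1 : (0 : ℝ) < n (j + 1) := by exact_mod_cast h1 (j + 1)
      have e2 : (0 : ℝ) < n j := by exact_mod_cast h1 j
      positivity
  have hlogQ : Real.log Q = ∑ j, (((-c j).toNat : ℝ) * Real.log (n (j + 1)) +
      ((c j).toNat : ℝ) * Real.log (n j)) := by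
    rw [hQ]
    push_cast
    rw [Real.log_prod]
    · apply sum_congr rfl
      intro j _
      have e1 : (0 : ℝ) < (n (j + 1) : ℝ) ^ (-c j).toNat := by
        have := h1 (j + 1)
        have : (0 : ℝ) < n (j + 1) := by exact_mod_cast this
        positivity
      have e2 : (0 : ℝ) < (n j : ℝ) ^ (c j).toNat := by
        have := h1 j
        have : (0 : ℝ) < n j := by exact_mod_cast this
        positivity
      rw [Real.log_mul e1.ne' e2.ne', Real.log_pow, Real.log_pow]
    · intro j _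
      have e1 : (0 : ℝ) < n (j + 1) := by exact_mod_cast h1 (j + 1)
      have e2 : (0 : ℝ) < n j := by exact_mod_cast h1 j
      positivity
  have hθ : ∑ j, (c j : ℝ) * (Real.log (n (j + 1)) - Real.log (n j)) =
      Real.log P - Real.log Q := by
    rw [hlogP, hlogQ, ← sum_sub_distrib]
    apply sum_congr rfl
    intro j _
    have := htoNat j
    push_cast at this
    rw [← this]
    ring
  by_cases hPQ : P = Q
  · left
    refine ⟨?_, by rw [hθ, hPQ, sub_self]⟩
    have hvP : v P = ∑ j, (((c j).toNat : ℚ) • v (n (j + 1)) + ((-c j).toNat : ℚ) • v (n j)) := by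
      rw [hP, v_prod _ _ fun j _ => (Nat.mul_pos (hpos _ _) (hpos _ _)).ne']
      apply sum_congr rfl
      intro j _
      rw [v_mul (hpos _ _).ne' (hpos _ _).ne', v_pow, v_pow]
    have hvQ : v Q = ∑ j, (((-c j).toNat : ℚ) • v (n (j + 1)) + ((c j).toNat : ℚ) • v (n j)) := by
      rw [hQ, v_prod _ _ fun j _ => (Nat.mul_pos (hpos _ _) (hpos _ _)).ne']
      apply sum_congr rfl
      intro j _
      rw [v_mul (hpos _ _).ne' (hpos _ _).ne', v_pow, v_pow]
    have h3 : v P - v Q = 0 := by rw [hPQ, sub_self]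
    rw [hvP, hvQ, ← sum_sub_distrib] at h3
    rw [← h3]
    apply sum_congr rfl
    intro j _
    rw [← htoNatQ j]
    unfold wc
    module
  · right
    rw [hθ]
    have := log_dist hP1 hQ1 hPK hQK hPQ
    push_cast at this
    exact this

end Pool.Agent.Y959.Gen
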