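import Mathlib

set_option autoImplicit false

/-!
# The quadratic form of a positive matrix is bounded by the moments of its eigenvalues
-/

namespace Pool.Agent.Y959.Gen

open Matrix Finset
open scoped ComplexOrder

variable {ι : Type*} [Fintype ι] [DecidableEq ι]

theorem trace_pow_eq {A : Matrix ι ι ℂ} (hA : A.IsHermitian) (k : ℕ) :
    (A ^ k).trace = ∑ i, ((hA.eigenvalues i : ℂ)) ^ k := by
  conv_lhs => rw [hA.spectral_theorem]
  rw [← map_pow, Unitary.conjStarAlgAut_apply, Matrix.trace_mul_cycle]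
  rw [Unitary.coe_star_mul_self, one_mul, Matrix.diagonal_pow, Matrix.trace_diagonal]
  rfl

theorem quad_le (H : Matrix ι ι ℂ) (hH : H.PosSemidef) (k : ℕ) (hk : 1 ≤ k) (τ : ℝ)
    (hτ : ((H ^ k).trace).re ≤ τ) (b : ι → ℂ) :
    (star b ⬝ᵥ (H *ᵥ b)).re ≤ τ ^ (1 / (k : ℝ)) * ∑ i, ‖b i‖ ^ 2 := by
  set lam := hH.1.eigenvalues with hlam
  have hlam0 : ∀ i, 0 ≤ lam i := fun i => hH.eigenvalues_nonneg i
  have hk0 : (0 : ℝ) < k := by exact_mod_cast hk
  have hsum : ∑ i, lam i ^ k ≤ τ := by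
    refine le_trans (le_of_eq ?_) hτ
    rw [trace_pow_eq hH.1]
    have : ∑ i, ((hH.1.eigenvalues i : ℂ)) ^ k = ((∑ i, lam i ^ k : ℝ) : ℂ) := by
      push_cast
      rfl
    rw [this, Complex.ofReal_re]
  have hle : ∀ i, lam i ≤ τ ^ (1 / (k : ℝ)) := by
    intro i
    have h1 : lam i ^ k ≤ τ :=
      (single_le_sum (f := fun i => lam i ^ k) (fun j _ => pow_nonneg (hlam0 j) k)
        (mem_univ i)).trans hsum
    have h2 : lam i = (lam i ^ k) ^ (1 / (k : ℝ)) := by
      rw [← Real.rpow_natCast, ← Real.rpow_mul (hlam0 i), mul_one_div, div_self hk0.ne',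
        Real.rpow_one]
    rw [h2]
    exact Real.rpow_le_rpow (pow_nonneg (hlam0 i) k) h1 (by positivity)
  set U : Matrix ι ι ℂ := (hH.1.eigenvectorUnitary : Matrix ι ι ℂ) with hU
  set c : ι → ℂ := star U *ᵥ b with hc
  have hspec : H = U * diagonal (fun i => (lam i : ℂ)) * star U := by
    conv_lhs => rw [hH.1.spectral_theorem]
    rw [Unitary.conjStarAlgAut_apply]
    rfl
  have h1 : star b ⬝ᵥ (H *ᵥ b) = star c ⬝ᵥ (diagonal (fun i => (lam i : ℂ)) *ᵥ c) := by
    conv_lhs => rw [hspec]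
    rw [hc, ← Matrix.mulVec_mulVec, ← Matrix.mulVec_mulVec, Matrix.dotProduct_mulVec,
      Matrix.star_mulVec]
    congr 2
    rw [← Matrix.star_eq_conjTranspose, star_star]
  have h2 : star c ⬝ᵥ (diagonal (fun i => (lam i : ℂ)) *ᵥ c) =
      ((∑ i, lam i * ‖c i‖ ^ 2 : ℝ) : ℂ) := by
    rw [dotProduct]
    push_cast
    apply sum_congr rfl
    intro i _
    rw [Matrix.mulVec_diagonal, Pi.star_apply, Complex.star_def]
    have := Complex.conj_mul' (c i)
    rw [mul_left_comm, this]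
  have h3 : ∑ i, ‖c i‖ ^ 2 = ∑ i, ‖b i‖ ^ 2 := by
    have e1 : ∀ x : ι → ℂ, star x ⬝ᵥ x = ((∑ i, ‖x i‖ ^ 2 : ℝ) : ℂ) := by
      intro x
      rw [dotProduct]
      push_cast
      apply sum_congr rfl
      intro i _
      rw [Pi.star_apply, Complex.star_def, Complex.conj_mul']
    have e2 : star c ⬝ᵥ c = star b ⬝ᵥ b := by
      rw [hc, Matrix.star_mulVec, ← Matrix.star_eq_conjTranspose, star_star,
        ← Matrix.dotProduct_mulVec, Matrix.mulVec_mulVec]
      have : U * star U = 1 := by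
        rw [hU]
        exact Unitary.coe_mul_star_self hH.1.eigenvectorUnitary
      rw [this, Matrix.one_mulVec]
    rw [e1, e1] at e2
    exact_mod_cast e2
  rw [h1, h2, Complex.ofReal_re, ← h3, mul_sum]
  exact sum_le_sum fun i _ => mul_le_mul_of_nonneg_right (hle i) (by positivity)

end Pool.Agent.Y959.Gen
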