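import Mathlib
import Pool.Agent.Y959.Gen.Log
import Pool.Agent.Y959.Gen.Trace
import Pool.Agent.Y959.Gen.Box
import Pool.Agent.H654R3.Paths

set_option autoImplicit false

/-!
# The large sieve for Dirichlet polynomials on a generic linear image of a finite set of integer
# vectors
-/

namespace Pool.Agent.Y959.Gen

open MeasureTheory Finset Matrix
open scoped ComplexOrder

variable {D : Type*} [Fintype D] [DecidableEq D]

/-- The point of the line attached to `a`: `x · a + s a`. -/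
noncomputable def pt (s : (D → ℤ) → ℝ) (a : D → ℤ) (x : D → ℝ) : ℝ :=
  (∑ i, (a i : ℝ) * x i) + s a

/-- The rectangular matrix `(n^{i t})`. -/
noncomputable def Mx (s : (D → ℤ) → ℝ) (A : Finset (D → ℤ)) (I : Finset ℕ) (x : D → ℝ) :
    Matrix A I ℂ :=
  fun a n => Complex.exp (((pt s a x * Real.log (n : ℕ) : ℝ) : ℂ) * Complex.I)

/-- Its Gram matrix. -/
noncomputable def Hx (s : (D → ℤ) → ℝ) (A : Finset (D → ℤ)) (I : Finset ℕ) (x : D → ℝ) :
    Matrix I I ℂ := (Mx s A I x)ᴴ * Mx s A I x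

theorem Hx_apply (s : (D → ℤ) → ℝ) (A : Finset (D → ℤ)) (I : Finset ℕ) (x : D → ℝ) (n n' : I) :
    Hx s A I x n n' = ∑ a : A,
      Complex.exp (((pt s a x * (Real.log (n' : ℕ) - Real.log (n : ℕ)) : ℝ) : ℂ) * Complex.I) := by
  unfold Hx
  rw [Matrix.mul_apply]
  apply sum_congr rfl
  intro a _
  rw [Matrix.conjTranspose_apply]
  unfold Mx
  rw [Complex.star_def, ← Complex.exp_conj, ← Complex.exp_add]
  congr 1
  rw [map_mul, Complex.conj_ofReal, Complex.conj_I]
  push_cast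
  ring

theorem trace_eq (s : (D → ℤ) → ℝ) (A : Finset (D → ℤ)) (I : Finset ℕ) (x : D → ℝ) (m : ℕ) :
    ((Hx s A I x) ^ (m + 1)).trace = ∑ q : (Fin (m + 1) → I) × (Fin (m + 1) → A),
      Complex.exp ((((∑ i, (∑ j, (((q.2 j : A) : D → ℤ) i : ℝ) *
          (Real.log ((q.1 (j + 1) : I) : ℕ) - Real.log ((q.1 j : I) : ℕ))) * x i) +
        ∑ j, s (q.2 j : A) *
          (Real.log ((q.1 (j + 1) : I) : ℕ) - Real.log ((q.1 j : I) : ℕ)) : ℝ) : ℂ) *
        Complex.I) := by
  rw [Pool.Agent.H654R3.trace_pow_paths, Fintype.sum_prod_type]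
  apply sum_congr rfl
  intro p _
  simp only [Hx_apply]
  rw [Finset.prod_univ_sum, Fintype.piFinset_univ]
  apply sum_congr rfl
  intro q _
  rw [← Complex.exp_sum, ← sum_mul, ← Complex.ofReal_sum]
  congr 3
  unfold pt
  have e : ∀ j, ((∑ i, (((q j : A) : D → ℤ) i : ℝ) * x i) + s (q j : A)) *
      (Real.log ((p (j + 1) : I) : ℕ) - Real.log ((p j : I) : ℕ)) =
      (∑ i, (((q j : A) : D → ℤ) i : ℝ) *
        (Real.log ((p (j + 1) : I) : ℕ) - Real.log ((p j : I) : ℕ)) * x i) +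
      s (q j : A) * (Real.log ((p (j + 1) : I) : ℕ) - Real.log ((p j : I) : ℕ)) := by
    intro j
    rw [add_mul, sum_mul]
    congr 1
    apply sum_congr rfl
    intro i _
    ring
  simp only [e, sum_add_distrib]
  congr 1
  rw [sum_comm]
  apply sum_congr rfl
  intro i _
  rw [sum_mul]

theorem trace_cont (s : (D → ℤ) → ℝ) (A : Finset (D → ℤ)) (I : Finset ℕ) (m : ℕ) :
    Continuous (fun x : D → ℝ => ((Hx s A I x) ^ (m + 1)).trace) := by
  simp only [trace_eq]
  fun_prop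

theorem trace_nonneg (s : (D → ℤ) → ℝ) (A : Finset (D → ℤ)) (I : Finset ℕ) (x : D → ℝ) (k : ℕ) :
    0 ≤ (((Hx s A I x) ^ k).trace).re := by
  have hH : (Hx s A I x).PosSemidef := Matrix.posSemidef_conjTranspose_mul_self _
  rw [trace_pow_eq hH.1]
  have : ∑ i, ((hH.1.eigenvalues i : ℂ)) ^ k = ((∑ i, hH.1.eigenvalues i ^ k : ℝ) : ℂ) := by
    push_cast
    rfl
  rw [this, Complex.ofReal_re]
  exact sum_nonneg fun i _ => pow_nonneg (hH.eigenvalues_nonneg i) k

theorem quad_eq (s : (D → ℤ) → ℝ) (A : Finset (D → ℤ)) (I : Finset ℕ) (x : D → ℝ) (b : I → ℂ) :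
    (star b ⬝ᵥ (Hx s A I x *ᵥ b)).re = ∑ a : A, ‖∑ n : I, Mx s A I x a n * b n‖ ^ 2 := by
  unfold Hx
  rw [← Matrix.mulVec_mulVec, Matrix.dotProduct_mulVec, ← Matrix.star_mulVec, dotProduct]
  rw [Complex.re_sum]
  apply sum_congr rfl
  intro a _
  rw [Pi.star_apply, Complex.star_def, Complex.conj_mul']
  have : (Mx s A I x *ᵥ b) a = ∑ n : I, Mx s A I x a n * b n := rfl
  rw [this]
  norm_cast

/-- the bound for the mean of the moment -/
theorem moment_bound (M B : ℕ) (I : Finset ℕ) (hI : ∀ n ∈ I, 1 ≤ n ∧ n ≤ M)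
    (A : Finset (D → ℤ)) (hA : 1 ≤ A.card) (hB : ∀ a ∈ A, ∀ i, |a i| ≤ B)
    (s : (D → ℤ) → ℝ) (m : ℕ) (Λ : ℝ) (hΛ : 0 < Λ)
    (hΛ2 : 2 * (M : ℝ) ^ ((m + 1) * B) * ((I.card : ℝ) * A.card) ^ (m + 1) ≤ Λ) :
    ∫ x in box D Λ, (((Hx s A I x) ^ (m + 1)).trace).re ≤
      Λ ^ Fintype.card D * (1 + A.card * (I.card * ∏ j ∈ range m,
        ((I.card : ℝ) + A.card * (Nat.log 2 M + 1) ^ j))) := by
  classical
  set θ : ((Fin (m + 1) → I) × (Fin (m + 1) → A)) → D → ℝ := fun q i =>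
    ∑ j, (((q.2 j : A) : D → ℤ) i : ℝ) *
          (Real.log ((q.1 (j + 1) : I) : ℕ) - Real.log ((q.1 j : I) : ℕ)) with hθ
  set c : ((Fin (m + 1) → I) × (Fin (m + 1) → A)) → ℝ := fun q =>
    ∑ j, s (q.2 j : A) *
          (Real.log ((q.1 (j + 1) : I) : ℕ) - Real.log ((q.1 j : I) : ℕ)) with hc
  set S : Finset ((Fin (m + 1) → I) × (Fin (m + 1) → A)) := univ.filter (fun q => ∀ i : D,
      ∑ j, ((((q.2 j : A) : D → ℤ) i : ℤ) : ℚ) • wc (fun j => ((q.1 j : I) : ℕ)) j = 0) with hS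
  have hScard := exact_count M I hI A hA m S (fun q hq i => (mem_filter.1 hq).2 i)
  have hcont : ∀ q, Continuous (fun x : D → ℝ =>
      Complex.exp ((((∑ i, θ q i * x i) + c q : ℝ) : ℂ) * Complex.I)) := by
    intro q
    fun_prop
  have hint : ∀ q, IntegrableOn (fun x : D → ℝ =>
      Complex.exp ((((∑ i, θ q i * x i) + c q : ℝ) : ℂ) * Complex.I)) (box D Λ) volume :=
    fun q => (hcont q).continuousOn.integrableOn_compact (box_compact Λ)
  have h1 : ∫ x in box D Λ, (((Hx s A I x) ^ (m + 1)).trace).re =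
      (∑ q, ∫ x in box D Λ,
        Complex.exp ((((∑ i, θ q i * x i) + c q : ℝ) : ℂ) * Complex.I)).re := by
    rw [← integral_finsetSum _ (fun q _ => hint q)]
    have h2 : ∀ f : (D → ℝ) → ℂ, IntegrableOn f (box D Λ) volume →
        ∫ x in box D Λ, (f x).re = (∫ x in box D Λ, f x).re := by
      intro f hf
      exact integral_re hf
    rw [← h2]
    · apply integral_congr_ae
      refine Filter.Eventually.of_forall fun x => ?_
      simp only [trace_eq, hθ, hc]
    · exact integrable_finsetSum _ (fun q _ => hint q)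
  rw [h1]
  have hΛD : 0 < Λ ^ Fintype.card D := pow_pos hΛ _
  have hM0 : (0 : ℝ) ≤ (M : ℝ) ^ ((m + 1) * B) := by positivity
  have hq : ∀ q, ‖∫ x in box D Λ,
        Complex.exp ((((∑ i, θ q i * x i) + c q : ℝ) : ℂ) * Complex.I)‖ ≤
      (if q ∈ S then Λ ^ Fintype.card D else 0) +
        Λ ^ Fintype.card D * (2 * (M : ℝ) ^ ((m + 1) * B) / Λ) := by
    intro q
    by_cases hqS : q ∈ S
    · rw [if_pos hqS]
      have := int_box Λ hΛ (θ q) (c q)
      have h3 : 0 ≤ Λ ^ Fintype.card D * (2 * (M : ℝ) ^ ((m + 1) * B) / Λ) := by positivity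
      linarith
    · rw [if_neg hqS, zero_add]
      have h3 : ∃ i : D, ∑ j, ((((q.2 j : A) : D → ℤ) i : ℤ) : ℚ) •
          wc (fun j => ((q.1 j : I) : ℕ)) j ≠ 0 := by
        by_contra hcon
        push Not at hcon
        exact hqS (by rw [hS, mem_filter]; exact ⟨mem_univ _, hcon⟩)
      obtain ⟨i, hi⟩ := h3
      have h4 := log_form (fun j => ((q.1 j : I) : ℕ)) M B (fun j => (hI _ (q.1 j).2).1)
        (fun j => (hI _ (q.1 j).2).2) (fun j => ((q.2 j : A) : D → ℤ) i)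
        (fun j => hB _ (q.2 j).2 i)
      rcases h4 with ⟨h4, _⟩ | h4
      · exact absurd h4 hi
      · have h5 : 1 ≤ (M : ℝ) ^ ((m + 1) * B) * |θ q i| := h4
        have h6 : θ q i ≠ 0 := by
          intro h0
          rw [h0, abs_zero, mul_zero] at h5
          linarith
        have h7 : 0 < |θ q i| := abs_pos.2 h6
        refine (int_box' Λ hΛ (θ q) (c q) i h6).trans ?_
        apply mul_le_mul_of_nonneg_left _ hΛD.le
        rw [div_le_div_iff₀ (by positivity) hΛ]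
        calc 2 * Λ = 2 * Λ * 1 := by ring
          _ ≤ 2 * Λ * ((M : ℝ) ^ ((m + 1) * B) * |θ q i|) := by gcongr
          _ = 2 * (M : ℝ) ^ ((m + 1) * B) * (Λ * |θ q i|) := by ring
  refine (Complex.re_le_norm _).trans ((norm_sum_le _ _).trans ((sum_le_sum fun q _ => hq q).trans ?_))
  rw [sum_add_distrib, sum_ite_mem, univ_inter, sum_const, sum_const, nsmul_eq_mul, nsmul_eq_mul,
    card_univ, Fintype.card_prod, Fintype.card_fun, Fintype.card_fun, Fintype.card_coe,
    Fintype.card_coe, Fintype.card_fin]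
  have hS2 : (S.card : ℝ) ≤ A.card * (I.card * ∏ j ∈ range m,
        ((I.card : ℝ) + A.card * (Nat.log 2 M + 1) ^ j)) := by
    have : ((S.card : ℕ) : ℝ) ≤ ((A.card * (I.card * ∏ j ∈ range m,
      (I.card + A.card * (Nat.log 2 M + 1) ^ j)) : ℕ) : ℝ) := by exact_mod_cast hScard
    refine this.trans (le_of_eq ?_)
    push_cast
    rfl
  have h8 : ((I.card ^ (m + 1) * A.card ^ (m + 1) : ℕ) : ℝ) *
      (Λ ^ Fintype.card D * (2 * (M : ℝ) ^ ((m + 1) * B) / Λ)) ≤ Λ ^ Fintype.card D * 1 := by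
    have h9 : ((I.card ^ (m + 1) * A.card ^ (m + 1) : ℕ) : ℝ) *
      (Λ ^ Fintype.card D * (2 * (M : ℝ) ^ ((m + 1) * B) / Λ)) =
      Λ ^ Fintype.card D * ((2 * (M : ℝ) ^ ((m + 1) * B) *
        ((I.card : ℝ) * A.card) ^ (m + 1)) / Λ) := by
      push_cast
      rw [mul_pow]
      ring
    rw [h9]
    apply mul_le_mul_of_nonneg_left _ hΛD.le
    rw [div_le_one hΛ]
    exact hΛ2
  have h10 := mul_le_mul_of_nonneg_left hS2 hΛD.le
  nlinarith [h8, h10]

/-- The large sieve for a generic linear image of a set of integer vectors. -/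
theorem main (M B : ℕ) (I : Finset ℕ) (hI : ∀ n ∈ I, 1 ≤ n ∧ n ≤ M)
    (A : Finset (D → ℤ)) (hA : 1 ≤ A.card) (hB : ∀ a ∈ A, ∀ i, |a i| ≤ B)
    (s : (D → ℤ) → ℝ) (m : ℕ) (Λ η : ℝ) (hΛ : 0 < Λ) (hη : 0 < η)
    (hΛ2 : 2 * (M : ℝ) ^ ((m + 1) * B) * ((I.card : ℝ) * A.card) ^ (m + 1) ≤ Λ) :
    ∃ E : Set (D → ℝ), MeasurableSet E ∧
      volume E ≤ ENNReal.ofReal (η * Λ ^ Fintype.card D) ∧
      ∀ x : D → ℝ, (∀ i, x i ∈ Set.Icc Λ (2 * Λ)) → x ∉ E → ∀ b : ℕ → ℂ,
        ∑ a ∈ A, ‖∑ n ∈ I, b n *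
          Complex.exp (Complex.I * (((∑ i, (a i : ℝ) * x i) + s a : ℝ) : ℂ) *
            (Real.log (n : ℝ) : ℂ))‖ ^ 2 ≤
          ((1 + A.card * (I.card * ∏ j ∈ range m,
            ((I.card : ℝ) + A.card * (Nat.log 2 M + 1) ^ j))) / η) ^ (1 / ((m : ℝ) + 1)) *
          ∑ n ∈ I, ‖b n‖ ^ 2 := by
  classical
  set Y : ℝ := 1 + A.card * (I.card * ∏ j ∈ range m,
            ((I.card : ℝ) + A.card * (Nat.log 2 M + 1) ^ j)) with hY
  have hY0 : 0 < Y := by
    rw [hY]
    have : 0 ≤ (A.card : ℝ) * (I.card * ∏ j ∈ range m,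
            ((I.card : ℝ) + A.card * (Nat.log 2 M + 1) ^ j)) := by
      apply mul_nonneg (by positivity)
      apply mul_nonneg (by positivity)
      exact prod_nonneg fun j _ => by positivity
    linarith
  set f : (D → ℝ) → ℝ := fun x => (((Hx s A I x) ^ (m + 1)).trace).re with hf
  have hfc : Continuous f := Complex.continuous_re.comp (trace_cont s A I m)
  set E : Set (D → ℝ) := box D Λ ∩ {x | Y / η ≤ f x} with hE
  have hEm : MeasurableSet E :=
    (box_meas Λ).inter (isClosed_le continuous_const hfc).measurableSet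
  have hΛD : 0 < Λ ^ Fintype.card D := pow_pos hΛ _
  refine ⟨E, hEm, ?_, ?_⟩
  · have hmark := mul_meas_ge_le_integral_of_nonneg (μ := volume.restrict (box D Λ)) (f := f)
      (Filter.Eventually.of_forall fun x => trace_nonneg s A I x (m + 1))
      (hfc.continuousOn.integrableOn_compact (box_compact Λ)) (Y / η)
    have hmom := moment_bound M B I hI A hA hB s m Λ hΛ hΛ2
    have h1 : Y / η * (volume.restrict (box D Λ)).real {x | Y / η ≤ f x} ≤
        Λ ^ Fintype.card D * Y := hmark.trans hmom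
    have h2 : (volume.restrict (box D Λ)).real {x | Y / η ≤ f x} ≤ η * Λ ^ Fintype.card D := by
      have h3 : 0 < Y / η := div_pos hY0 hη
      rw [← mul_le_mul_iff_right₀ h3]
      refine h1.trans (le_of_eq ?_)
      field_simp
    have h3 : volume E = (volume.restrict (box D Λ)) {x | Y / η ≤ f x} := by
      rw [Measure.restrict_apply (isClosed_le continuous_const hfc).measurableSet, hE,
        Set.inter_comm]
    rw [h3]
    have h4 : (volume.restrict (box D Λ)) {x | Y / η ≤ f x} ≠ ⊤ := by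
      rw [← h3]
      exact ((measure_mono Set.inter_subset_left).trans_lt
        (box_compact Λ).measure_lt_top).ne
    rw [← ENNReal.ofReal_toReal h4]
    exact ENNReal.ofReal_le_ofReal h2
  · intro x hx hxE b
    have hxbox : x ∈ box D Λ := fun i _ => hx i
    have hfx : f x ≤ Y / η := by
      by_contra hcon
      push Not at hcon
      exact hxE ⟨hxbox, hcon.le⟩
    have hH : (Hx s A I x).PosSemidef := Matrix.posSemidef_conjTranspose_mul_self _
    have hq := quad_le (Hx s A I x) hH (m + 1) (by omega) (Y / η) hfx (fun n : I => b n)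
    rw [quad_eq] at hq
    have h1 : ∑ a : A, ‖∑ n : I, Mx s A I x a n * b n‖ ^ 2 =
        ∑ a ∈ A, ‖∑ n ∈ I, b n *
          Complex.exp (Complex.I * (((∑ i, (a i : ℝ) * x i) + s a : ℝ) : ℂ) *
            (Real.log (n : ℝ) : ℂ))‖ ^ 2 := by
      rw [← sum_coe_sort A (fun a => ‖∑ n ∈ I, b n *
          Complex.exp (Complex.I * (((∑ i, (a i : ℝ) * x i) + s a : ℝ) : ℂ) *
            (Real.log (n : ℝ) : ℂ))‖ ^ 2)]
      apply sum_congr rfl
      intro a _
      congr 2
      rw [← sum_coe_sort I]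
      apply sum_congr rfl
      intro n _
      unfold Mx pt
      rw [mul_comm]
      congr 2
      push_cast
      ring
    have h2 : ∑ n : I, ‖b n‖ ^ 2 = ∑ n ∈ I, ‖b n‖ ^ 2 := sum_coe_sort I (fun n => ‖b n‖ ^ 2)
    rw [h1, h2, Nat.cast_add, Nat.cast_one] at hq
    exact hq

end Pool.Agent.Y959.Gen
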