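import Mathlib
import Pool.Agent.Y959.Gen.Main

set_option autoImplicit false

/-!
# The large sieve for generic linear images, asymptotic form
-/

namespace Pool.Agent.Y959.Gen

open MeasureTheory Finset

/-- powers of the logarithm are absorbed by any power of `M`. -/
theorem log_absorb (m : ℕ) (ε : ℝ) (hε : 0 < ε) :
    ∃ K : ℝ, 1 ≤ K ∧ ∀ M : ℕ, 1 ≤ M → ((Nat.log 2 M : ℝ) + 1) ^ m ≤ K * (M : ℝ) ^ ε := by
  set δ : ℝ := ε / ((m : ℝ) + 1) with hδ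
  have hδ0 : 0 < δ := by positivity
  refine ⟨(2 / δ + 2) ^ m, one_le_pow₀ (by have : 0 < 2 / δ := by positivity
                                           linarith), ?_⟩
  intro M hM
  have hM1 : (1 : ℝ) ≤ M := by exact_mod_cast hM
  have hM0 : (0 : ℝ) < M := by linarith
  have h1 : (Nat.log 2 M : ℝ) ≤ Real.log M / Real.log 2 := by
    have h := Real.natLog_le_logb M 2
    rwa [Real.logb, Nat.cast_ofNat] at h
  have h2 : Real.log M ≤ (M : ℝ) ^ δ / δ := Real.log_le_rpow_div hM0.le hδ0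
  have h3 : (1 : ℝ) ≤ (M : ℝ) ^ δ := Real.one_le_rpow hM1 hδ0.le
  have h4 : (1 : ℝ) / 2 ≤ Real.log 2 := by
    have := Real.log_two_gt_d9
    linarith
  have h5 : Real.log M / Real.log 2 ≤ 2 * Real.log M := by
    rw [div_le_iff₀ (by linarith)]
    have := Real.log_nonneg hM1
    nlinarith
  have h6 : (Nat.log 2 M : ℝ) + 1 ≤ (2 / δ + 2) * (M : ℝ) ^ δ := by
    have h7 : 2 * Real.log M ≤ 2 / δ * (M : ℝ) ^ δ := by
      calc 2 * Real.log M ≤ 2 * ((M : ℝ) ^ δ / δ) := by linarith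
        _ = 2 / δ * (M : ℝ) ^ δ := by ring
    nlinarith
  calc ((Nat.log 2 M : ℝ) + 1) ^ m ≤ ((2 / δ + 2) * (M : ℝ) ^ δ) ^ m :=
        pow_le_pow_left₀ (by positivity) h6 m
    _ = (2 / δ + 2) ^ m * ((M : ℝ) ^ δ) ^ m := by rw [mul_pow]
    _ ≤ (2 / δ + 2) ^ m * (M : ℝ) ^ ε := by
        apply mul_le_mul_of_nonneg_left _ (by positivity)
        rw [← Real.rpow_natCast, ← Real.rpow_mul hM0.le]
        apply Real.rpow_le_rpow_of_exponent_le hM1
        rw [hδ, div_mul_eq_mul_div, div_le_iff₀ (by positivity)]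
        nlinarith

/-- General form: an arbitrary set `I` of integers in `[1, M]`. -/
theorem asym (ε A C : ℝ) (hε : 0 < ε) (hA : 0 ≤ A) :
    ∃ (k : ℕ) (K : ℝ), 1 ≤ K ∧ ∀ M : ℕ, 1 ≤ M → ∀ I : Finset ℕ, (∀ n ∈ I, 1 ≤ n ∧ n ≤ M) →
      ∀ (d B : ℕ) (W : Finset (Fin d → ℤ)) (s : (Fin d → ℤ) → ℝ) (Λ : ℝ),
        (∀ a ∈ W, ∀ i, |a i| ≤ B) → (W.card : ℝ) ≤ (M : ℝ) ^ A →
        K * (M : ℝ) ^ ((k : ℝ) * (B + 1 + A)) ≤ Λ →
        ∃ E : Set (Fin d → ℝ), MeasurableSet E ∧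
          volume E ≤ ENNReal.ofReal ((M : ℝ) ^ (-C) * Λ ^ d) ∧
          ∀ x : Fin d → ℝ, (∀ i, x i ∈ Set.Icc Λ (2 * Λ)) → x ∉ E → ∀ b : ℕ → ℂ,
            ∑ a ∈ W, ‖∑ n ∈ I, b n *
              Complex.exp (Complex.I * (((∑ i, (a i : ℝ) * x i) + s a : ℝ) : ℂ) *
                (Real.log (n : ℝ) : ℂ))‖ ^ 2 ≤
              K * (M : ℝ) ^ ε * ((I.card : ℝ) + W.card) * ∑ n ∈ I, ‖b n‖ ^ 2 := by
  classical
  obtain ⟨m, hm⟩ : ∃ m : ℕ, (A + C) / (ε / 2) ≤ (m : ℝ) := exists_nat_ge _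
  obtain ⟨K₁, hK₁, hK₁'⟩ := log_absorb m (ε / 2) (by positivity)
  have hm1 : (0 : ℝ) < (m : ℝ) + 1 := by positivity
  refine ⟨m + 1, 2 * K₁, by linarith, ?_⟩
  intro M hM I hI d B W s Λ hB hW hΛ
  rw [Nat.cast_add, Nat.cast_one] at hΛ
  have hM1 : (1 : ℝ) ≤ M := by exact_mod_cast hM
  have hM0 : (0 : ℝ) < M := by linarith
  rcases W.eq_empty_or_nonempty with rfl | hne
  · refine ⟨∅, MeasurableSet.empty, by simp, ?_⟩
    intro x _ _ b
    rw [sum_empty]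
    positivity
  have hWc : 1 ≤ W.card := hne.card_pos
  have hWr : (1 : ℝ) ≤ W.card := by exact_mod_cast hWc
  have hIc : (I.card : ℝ) ≤ M := by
    have : I ⊆ Icc 1 M := fun n hn => mem_Icc.2 (hI n hn)
    have := card_le_card this
    rw [Nat.card_Icc] at this
    exact_mod_cast (by omega : I.card ≤ M)
  have hI0 : (0 : ℝ) ≤ I.card := Nat.cast_nonneg _
  -- the size of `Λ`
  have hMκ : 0 < (M : ℝ) ^ (((m : ℝ) + 1) * (B + 1 + A)) := Real.rpow_pos_of_pos hM0 _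
  have hΛ0 : 0 < Λ := lt_of_lt_of_le (by positivity) hΛ
  have hΛ2 : 2 * (M : ℝ) ^ ((m + 1) * B) * ((I.card : ℝ) * W.card) ^ (m + 1) ≤ Λ := by
    refine le_trans ?_ hΛ
    have h1 : ((I.card : ℝ) * W.card) ^ (m + 1) ≤ ((M : ℝ) ^ (1 + A)) ^ (m + 1) := by
      apply pow_le_pow_left₀ (by positivity)
      rw [Real.rpow_add hM0, Real.rpow_one]
      exact mul_le_mul hIc hW (by positivity) (by positivity)
    have h2 : (M : ℝ) ^ (((m : ℝ) + 1) * (B + 1 + A)) =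
        (M : ℝ) ^ ((m + 1) * B) * ((M : ℝ) ^ (1 + A)) ^ (m + 1) := by
      rw [← Real.rpow_natCast (M : ℝ) ((m + 1) * B), ← Real.rpow_natCast ((M : ℝ) ^ (1 + A)),
        ← Real.rpow_mul hM0.le, ← Real.rpow_add hM0]
      congr 1
      push_cast
      ring
    rw [h2]
    calc 2 * (M : ℝ) ^ ((m + 1) * B) * ((I.card : ℝ) * W.card) ^ (m + 1)
        ≤ 2 * (M : ℝ) ^ ((m + 1) * B) * ((M : ℝ) ^ (1 + A)) ^ (m + 1) := by gcongr
      _ ≤ 2 * K₁ * ((M : ℝ) ^ ((m + 1) * B) * ((M : ℝ) ^ (1 + A)) ^ (m + 1)) := by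
          have h3 : 0 ≤ (M : ℝ) ^ ((m + 1) * B) * ((M : ℝ) ^ (1 + A)) ^ (m + 1) := by positivity
          nlinarith
  have hη : 0 < (M : ℝ) ^ (-C) := Real.rpow_pos_of_pos hM0 _
  obtain ⟨E, hE1, hE2, hE3⟩ := main M B I hI W hWc hB s m Λ ((M : ℝ) ^ (-C)) hΛ0 hη hΛ2
  rw [Fintype.card_fin] at hE2
  refine ⟨E, hE1, hE2, ?_⟩
  intro x hx hxE b
  refine (hE3 x hx hxE b).trans ?_
  apply mul_le_mul_of_nonneg_right _ (sum_nonneg fun _ _ => by positivity)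
  set L : ℝ := (Nat.log 2 M : ℝ) + 1 with hL
  have hL1 : 1 ≤ L := by
    rw [hL]
    have : (0 : ℝ) ≤ Nat.log 2 M := Nat.cast_nonneg _
    linarith
  set X : ℝ := (I.card : ℝ) + W.card with hX
  have hX1 : 1 ≤ X := by linarith
  -- bound for the product
  have hprod : ∏ j ∈ range m, ((I.card : ℝ) + W.card * L ^ j) ≤ (X * L ^ m) ^ m := by
    calc ∏ j ∈ range m, ((I.card : ℝ) + W.card * L ^ j) ≤ ∏ _j ∈ range m, (X * L ^ m) := by
          apply prod_le_prod (fun j _ => by positivity)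
          intro j hj
          have h1 : L ^ j ≤ L ^ m := pow_le_pow_right₀ hL1 (mem_range.1 hj).le
          have h2 : 1 ≤ L ^ m := one_le_pow₀ hL1
          rw [hX]
          nlinarith
      _ = (X * L ^ m) ^ m := by rw [prod_const, card_range]
  have hY : 1 + (W.card : ℝ) * (I.card * ∏ j ∈ range m, ((I.card : ℝ) + W.card * L ^ j)) ≤
      2 * (M : ℝ) ^ A * (X * L ^ m) ^ (m + 1) := by
    have h1 : (1 : ℝ) ≤ (M : ℝ) ^ A := Real.one_le_rpow hM1 hA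
    have h2 : 1 ≤ L ^ m := one_le_pow₀ hL1
    have h3 : 1 ≤ X * L ^ m := by nlinarith
    have h4 : 1 ≤ (X * L ^ m) ^ (m + 1) := one_le_pow₀ h3
    have h5 : (I.card : ℝ) * ∏ j ∈ range m, ((I.card : ℝ) + W.card * L ^ j) ≤
        (X * L ^ m) ^ (m + 1) := by
      rw [pow_succ']
      apply mul_le_mul _ hprod (prod_nonneg fun j _ => by positivity) (by positivity)
      nlinarith
    have h6 : (W.card : ℝ) * (I.card * ∏ j ∈ range m, ((I.card : ℝ) + W.card * L ^ j)) ≤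
        (M : ℝ) ^ A * (X * L ^ m) ^ (m + 1) :=
      mul_le_mul hW h5 (mul_nonneg hI0 (prod_nonneg fun j _ => by positivity)) (by positivity)
    nlinarith
  have hbase : (1 + (W.card : ℝ) * (I.card * ∏ j ∈ range m, ((I.card : ℝ) + W.card * L ^ j))) /
      (M : ℝ) ^ (-C) ≤ 2 * (M : ℝ) ^ (A + C) * (X * L ^ m) ^ (m + 1) := by
    rw [div_le_iff₀ hη]
    have h1 : (M : ℝ) ^ (A + C) * (M : ℝ) ^ (-C) = (M : ℝ) ^ A := by
      rw [← Real.rpow_add hM0]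
      congr 1
      ring
    calc _ ≤ 2 * (M : ℝ) ^ A * (X * L ^ m) ^ (m + 1) := hY
      _ = 2 * ((M : ℝ) ^ (A + C) * (M : ℝ) ^ (-C)) * (X * L ^ m) ^ (m + 1) := by rw [h1]
      _ = _ := by ring
  have hnn : 0 ≤ (1 + (W.card : ℝ) * (I.card * ∏ j ∈ range m, ((I.card : ℝ) + W.card * L ^ j))) /
      (M : ℝ) ^ (-C) := by
    apply div_nonneg _ hη.le
    have : 0 ≤ (W.card : ℝ) * (I.card * ∏ j ∈ range m, ((I.card : ℝ) + W.card * L ^ j)) :=
      mul_nonneg (by positivity) (mul_nonneg hI0 (prod_nonneg fun j _ => by positivity))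
    linarith
  have hexp : 0 ≤ 1 / ((m : ℝ) + 1) := by positivity
  have hXL : 0 ≤ X * L ^ m := by positivity
  calc ((1 + (W.card : ℝ) * (I.card * ∏ j ∈ range m, ((I.card : ℝ) + W.card * L ^ j))) /
        (M : ℝ) ^ (-C)) ^ (1 / ((m : ℝ) + 1))
      ≤ (2 * (M : ℝ) ^ (A + C) * (X * L ^ m) ^ (m + 1)) ^ (1 / ((m : ℝ) + 1)) :=
        Real.rpow_le_rpow hnn hbase hexp
    _ = 2 ^ (1 / ((m : ℝ) + 1)) * ((M : ℝ) ^ (A + C)) ^ (1 / ((m : ℝ) + 1)) * (X * L ^ m) := by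
        rw [Real.mul_rpow (by positivity) (by positivity), Real.mul_rpow (by norm_num)
          (by positivity)]
        congr 1
        rw [← Real.rpow_natCast, ← Real.rpow_mul hXL]
        push_cast
        rw [mul_one_div, div_self hm1.ne', Real.rpow_one]
    _ ≤ 2 * (M : ℝ) ^ (ε / 2) * (X * (K₁ * (M : ℝ) ^ (ε / 2))) := by
        have h1 : (2 : ℝ) ^ (1 / ((m : ℝ) + 1)) ≤ 2 := by
          calc (2 : ℝ) ^ (1 / ((m : ℝ) + 1)) ≤ 2 ^ (1 : ℝ) := by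
                apply Real.rpow_le_rpow_of_exponent_le (by norm_num)
                rw [div_le_one hm1]
                have : (0 : ℝ) ≤ m := Nat.cast_nonneg _
                linarith
            _ = 2 := Real.rpow_one 2
        have h2 : ((M : ℝ) ^ (A + C)) ^ (1 / ((m : ℝ) + 1)) ≤ (M : ℝ) ^ (ε / 2) := by
          rw [← Real.rpow_mul hM0.le]
          apply Real.rpow_le_rpow_of_exponent_le hM1
          rw [mul_one_div, div_le_iff₀ hm1]
          rw [div_le_iff₀ (by positivity)] at hm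
          nlinarith
        have h3 := hK₁' M hM
        have h4 : 0 ≤ (2 : ℝ) ^ (1 / ((m : ℝ) + 1)) := by positivity
        gcongr
    _ = 2 * K₁ * ((M : ℝ) ^ (ε / 2) * (M : ℝ) ^ (ε / 2)) * X := by ring
    _ = 2 * K₁ * (M : ℝ) ^ ε * X := by
        rw [← Real.rpow_add hM0]
        congr 3
        ring

end Pool.Agent.Y959.Gen
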