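import Mathlib
import Pool.Agent.Y959.Gen.Asym

set_option autoImplicit false

/-!
# Montgomery's large value conjecture for generic linear images
-/

namespace Pool.Agent.Y959.Gen

open MeasureTheory Finset

theorem mont (ε A C : ℝ) (hε : 0 < ε) (hA : 0 ≤ A) (hC : 0 ≤ C) :
    ∃ (k : ℕ) (K : ℝ), 1 ≤ K ∧ ∀ N : ℕ, 1 ≤ N →
      ∀ (d B : ℕ) (W : Finset (Fin d → ℤ)) (s : (Fin d → ℤ) → ℝ) (Λ : ℝ),
        (∀ a ∈ W, ∀ i, |a i| ≤ B) → (W.card : ℝ) ≤ (N : ℝ) ^ A →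
        K * (2 * N : ℝ) ^ ((k : ℝ) * (B + 1 + A)) ≤ Λ →
        ∃ E : Set (Fin d → ℝ), MeasurableSet E ∧
          volume E ≤ ENNReal.ofReal ((N : ℝ) ^ (-C) * Λ ^ d) ∧
          ∀ x : Fin d → ℝ, (∀ i, x i ∈ Set.Icc Λ (2 * Λ)) → x ∉ E → ∀ b : ℕ → ℂ,
            (∑ a ∈ W, ‖∑ n ∈ Icc N (2 * N), b n *
              Complex.exp (Complex.I * (((∑ i, (a i : ℝ) * x i) + s a : ℝ) : ℂ) *
                (Real.log (n : ℝ) : ℂ))‖ ^ 2 ≤
              K * (N : ℝ) ^ ε * ((N : ℝ) + W.card) * ∑ n ∈ Icc N (2 * N), ‖b n‖ ^ 2) ∧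
            ((∀ n, ‖b n‖ ≤ 1) → ∀ σ : ℝ,
              ((W.filter (fun a => (N : ℝ) ^ σ < ‖∑ n ∈ Icc N (2 * N), b n *
                Complex.exp (Complex.I * (((∑ i, (a i : ℝ) * x i) + s a : ℝ) : ℂ) *
                  (Real.log (n : ℝ) : ℂ))‖)).card : ℝ) ≤
                K * (1 + W.card / N) * (N : ℝ) ^ (2 - 2 * σ + ε)) ∧
            ((∀ n, ‖b n‖ ≤ 1) → ∀ σ : ℝ, 1 / 2 + ε ≤ σ →
              (∀ a ∈ W, (N : ℝ) ^ σ < ‖∑ n ∈ Icc N (2 * N), b n *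
                Complex.exp (Complex.I * (((∑ i, (a i : ℝ) * x i) + s a : ℝ) : ℂ) *
                  (Real.log (n : ℝ) : ℂ))‖) →
              (W.card : ℝ) ≤ K * (N : ℝ) ^ (2 - 2 * σ + ε)) := by
  classical
  obtain ⟨k, K₀, hK₀, hmain⟩ := asym ε A C hε hA
  -- the threshold for `N`
  set K₁ : ℝ := K₀ * 2 ^ ε * 2 with hK₁
  have h2ε : (1 : ℝ) ≤ 2 ^ ε := Real.one_le_rpow (by norm_num) hε.le
  have hK₁1 : 1 ≤ K₁ := by rw [hK₁]; nlinarith
  set K₂ : ℝ := 2 * K₁ with hK₂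
  obtain ⟨N₀, hN₀⟩ : ∃ N₀ : ℕ, ∀ N : ℕ, N₀ ≤ N → K₂ * (N : ℝ) ^ (-ε) ≤ 1 / 2 := by
    have h1 : Filter.Tendsto (fun N : ℕ => K₂ * (N : ℝ) ^ (-ε)) Filter.atTop (nhds (K₂ * 0)) :=
      ((tendsto_rpow_neg_atTop hε).comp tendsto_natCast_atTop_atTop).const_mul K₂
    rw [mul_zero] at h1
    exact Filter.eventually_atTop.1 (h1.eventually (ge_mem_nhds (by norm_num : (0 : ℝ) < 1 / 2)))
  set K : ℝ := 2 * K₂ + K₀ + 4 * (N₀ : ℝ) ^ A with hK
  have hN₀A : (0 : ℝ) ≤ (N₀ : ℝ) ^ A := by positivity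
  have hK1 : 1 ≤ K := by rw [hK, hK₂]; nlinarith
  have hKK₂ : 2 * K₂ ≤ K := by rw [hK]; nlinarith
  have hKκ : K₀ ≤ K := by rw [hK]; nlinarith
  have hKN : 4 * (N₀ : ℝ) ^ A ≤ K := by rw [hK]; nlinarith
  refine ⟨k, K, hK1, ?_⟩
  intro N hN d B W s Λ hB hW hΛ
  have hN1 : (1 : ℝ) ≤ N := by exact_mod_cast hN
  have hN0 : (0 : ℝ) < N := by linarith
  have hcast : ((2 * N : ℕ) : ℝ) = 2 * (N : ℝ) := by push_cast; ring
  have h2N1 : (1 : ℝ) ≤ 2 * (N : ℝ) := by linarith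
  obtain ⟨E, hE1, hE2, hE3⟩ := hmain (2 * N) (by omega) (Icc N (2 * N))
    (fun n hn => ⟨le_trans hN (mem_Icc.1 hn).1, (mem_Icc.1 hn).2⟩) d B W s Λ hB
    (hW.trans (by
      rw [hcast]
      exact Real.rpow_le_rpow hN0.le (by linarith) hA))
    (by
      refine le_trans ?_ hΛ
      rw [hcast]
      exact mul_le_mul_of_nonneg_right hKκ (by positivity))
  have hΛ0 : 0 ≤ Λ := le_trans (by positivity) hΛ
  refine ⟨E, hE1, hE2.trans (ENNReal.ofReal_le_ofReal ?_), ?_⟩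
  · apply mul_le_mul_of_nonneg_right _ (pow_nonneg hΛ0 d)
    rw [hcast, Real.rpow_neg (by positivity), Real.rpow_neg hN0.le]
    apply inv_anti₀ (Real.rpow_pos_of_pos hN0 _)
    exact Real.rpow_le_rpow hN0.le (by linarith) hC
  intro x hx hxE b
  have hls := hE3 x hx hxE b
  set F : (Fin d → ℤ) → ℝ := fun a => ‖∑ n ∈ Icc N (2 * N), b n *
              Complex.exp (Complex.I * (((∑ i, (a i : ℝ) * x i) + s a : ℝ) : ℂ) *
                (Real.log (n : ℝ) : ℂ))‖ with hF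
  have hF0 : ∀ a, 0 ≤ F a := fun a => norm_nonneg _
  set R : ℝ := (W.card : ℝ) with hR
  have hR0 : 0 ≤ R := Nat.cast_nonneg _
  have hcardI : ((Icc N (2 * N)).card : ℝ) ≤ 2 * N := by
    rw [Nat.card_Icc]
    exact_mod_cast (by omega : 2 * N + 1 - N ≤ 2 * N)
  have hb0 : 0 ≤ ∑ n ∈ Icc N (2 * N), ‖b n‖ ^ 2 := sum_nonneg fun _ _ => by positivity
  have hls2 : ∑ a ∈ W, F a ^ 2 ≤ K₁ * (N : ℝ) ^ ε * ((N : ℝ) + R) *
      ∑ n ∈ Icc N (2 * N), ‖b n‖ ^ 2 := by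
    refine hls.trans ?_
    apply mul_le_mul_of_nonneg_right _ hb0
    rw [hcast, Real.mul_rpow (by norm_num) hN0.le, hK₁]
    have h1 : 0 ≤ K₀ * (2 ^ ε * (N : ℝ) ^ ε) := by positivity
    calc K₀ * (2 ^ ε * (N : ℝ) ^ ε) * (((Icc N (2 * N)).card : ℝ) + R)
        ≤ K₀ * (2 ^ ε * (N : ℝ) ^ ε) * (2 * ((N : ℝ) + R)) := by
          apply mul_le_mul_of_nonneg_left _ h1
          linarith
      _ = _ := by ring
  have hNε : (1 : ℝ) ≤ (N : ℝ) ^ ε := Real.one_le_rpow hN1 hε.le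
  have hpart1 : ∑ a ∈ W, F a ^ 2 ≤ K * (N : ℝ) ^ ε * ((N : ℝ) + R) *
      ∑ n ∈ Icc N (2 * N), ‖b n‖ ^ 2 := by
    refine hls2.trans ?_
    apply mul_le_mul_of_nonneg_right _ hb0
    apply mul_le_mul_of_nonneg_right _ (by linarith)
    apply mul_le_mul_of_nonneg_right _ (by linarith)
    linarith
  have hpart2 : (∀ n, ‖b n‖ ≤ 1) → ∀ σ : ℝ,
      ((W.filter (fun a => (N : ℝ) ^ σ < F a)).card : ℝ) ≤
        K₂ * (1 + R / N) * (N : ℝ) ^ (2 - 2 * σ + ε) := by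
    intro hb σ
    have h1 : ∑ n ∈ Icc N (2 * N), ‖b n‖ ^ 2 ≤ 2 * N := by
      calc ∑ n ∈ Icc N (2 * N), ‖b n‖ ^ 2 ≤ ∑ n ∈ Icc N (2 * N), (1 : ℝ) :=
            sum_le_sum fun n _ => pow_le_one₀ (norm_nonneg _) (hb n)
        _ ≤ 2 * N := by rw [sum_const, nsmul_eq_mul, mul_one]; exact hcardI
    have h2 : ((W.filter (fun a => (N : ℝ) ^ σ < F a)).card : ℝ) * ((N : ℝ) ^ σ) ^ 2 ≤
        ∑ a ∈ W, F a ^ 2 := by
      calc ((W.filter (fun a => (N : ℝ) ^ σ < F a)).card : ℝ) * ((N : ℝ) ^ σ) ^ 2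
          = ∑ a ∈ W.filter (fun a => (N : ℝ) ^ σ < F a), ((N : ℝ) ^ σ) ^ 2 := by
            rw [sum_const, nsmul_eq_mul]
        _ ≤ ∑ a ∈ W.filter (fun a => (N : ℝ) ^ σ < F a), F a ^ 2 :=
            sum_le_sum fun a ha => pow_le_pow_left₀ (by positivity) (mem_filter.1 ha).2.le 2
        _ ≤ ∑ a ∈ W, F a ^ 2 :=
            sum_le_sum_of_subset_of_nonneg (filter_subset _ _) fun _ _ _ => by positivity
    have h3 : ((W.filter (fun a => (N : ℝ) ^ σ < F a)).card : ℝ) * ((N : ℝ) ^ σ) ^ 2 ≤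
        K₁ * (N : ℝ) ^ ε * ((N : ℝ) + R) * (2 * N) :=
      h2.trans (hls2.trans (mul_le_mul_of_nonneg_left h1 (by positivity)))
    have h4 : (0 : ℝ) < ((N : ℝ) ^ σ) ^ 2 := by positivity
    rw [← le_div_iff₀ h4] at h3
    refine h3.trans (le_of_eq ?_)
    have h5 : (N : ℝ) ^ (2 - 2 * σ + ε) = (N : ℝ) ^ 2 / ((N : ℝ) ^ σ) ^ 2 * (N : ℝ) ^ ε := by
      rw [Real.rpow_add hN0, Real.rpow_sub hN0]
      congr 2
      · exact_mod_cast Real.rpow_natCast (N : ℝ) 2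
      · rw [mul_comm, Real.rpow_mul hN0.le]
        exact_mod_cast Real.rpow_natCast ((N : ℝ) ^ σ) 2
    rw [h5, hK₂]
    field_simp
  refine ⟨hpart1, ?_, ?_⟩
  · intro hb σ
    refine (hpart2 hb σ).trans ?_
    have h1 : 0 ≤ (N : ℝ) ^ (2 - 2 * σ + ε) := by positivity
    have h2 : 0 ≤ 1 + R / N := by positivity
    apply mul_le_mul_of_nonneg_right _ h1
    apply mul_le_mul_of_nonneg_right _ h2
    linarith
  · intro hb σ hσ hall
    have hfil : W.filter (fun a => (N : ℝ) ^ σ < F a) = W := filter_true_of_mem hall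
    have h1 := hpart2 hb σ
    rw [hfil] at h1
    have hX0 : 0 ≤ (N : ℝ) ^ (2 - 2 * σ + ε) := by positivity
    by_cases hNN : N₀ ≤ N
    · have h2 := hN₀ N hNN
      have h3 : (N : ℝ) ^ (2 - 2 * σ + ε) / N ≤ (N : ℝ) ^ (-ε) := by
        rw [div_le_iff₀ hN0]
        nth_rewrite 3 [← Real.rpow_one (N : ℝ)]
        rw [← Real.rpow_add hN0]
        apply Real.rpow_le_rpow_of_exponent_le hN1
        linarith
      have h4 : K₂ * (1 + R / N) * (N : ℝ) ^ (2 - 2 * σ + ε) =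
          K₂ * (N : ℝ) ^ (2 - 2 * σ + ε) + K₂ * ((N : ℝ) ^ (2 - 2 * σ + ε) / N) * R := by
        field_simp
      have h5 : K₂ * ((N : ℝ) ^ (2 - 2 * σ + ε) / N) * R ≤ 1 / 2 * R := by
        apply mul_le_mul_of_nonneg_right _ hR0
        refine le_trans ?_ h2
        exact mul_le_mul_of_nonneg_left h3 (by linarith)
      rw [h4] at h1
      have h6 : R ≤ 2 * K₂ * (N : ℝ) ^ (2 - 2 * σ + ε) := by linarith
      exact h6.trans (mul_le_mul_of_nonneg_right hKK₂ hX0)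
    · push Not at hNN
      rcases W.eq_empty_or_nonempty with hWe | ⟨a, ha⟩
      · rw [hR, hWe, card_empty, Nat.cast_zero]
        positivity
      · -- `N^σ < |D| ≤ 2 N`
        have h2 : F a ≤ 2 * N := by
          calc F a ≤ ∑ n ∈ Icc N (2 * N), (1 : ℝ) := by
                refine (norm_sum_le _ _).trans (sum_le_sum fun n _ => ?_)
                rw [norm_mul]
                have h3 : ‖Complex.exp (Complex.I * (((∑ i, (a i : ℝ) * x i) + s a : ℝ) : ℂ) *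
                    (Real.log (n : ℝ) : ℂ))‖ = 1 := by
                  have : Complex.I * (((∑ i, (a i : ℝ) * x i) + s a : ℝ) : ℂ) *
                    (Real.log (n : ℝ) : ℂ) = ((((∑ i, (a i : ℝ) * x i) + s a) *
                      Real.log (n : ℝ) : ℝ) : ℂ) * Complex.I := by
                    push_cast
                    ring
                  rw [this, Complex.norm_exp_ofReal_mul_I]
                rw [h3, mul_one]
                exact hb n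
            _ ≤ 2 * N := by rw [sum_const, nsmul_eq_mul, mul_one]; exact hcardI
        have h3 : (N : ℝ) ^ σ ≤ 2 * N := (hall a ha).le.trans h2
        have h4 : (1 : ℝ) ≤ 4 * (N : ℝ) ^ (2 - 2 * σ + ε) := by
          have h5 : (N : ℝ) ^ (2 - 2 * σ + ε) = (N : ℝ) ^ 2 / ((N : ℝ) ^ σ) ^ 2 * (N : ℝ) ^ ε := by
            rw [Real.rpow_add hN0, Real.rpow_sub hN0]
            congr 2
            · exact_mod_cast Real.rpow_natCast (N : ℝ) 2
            · rw [mul_comm, Real.rpow_mul hN0.le]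
              exact_mod_cast Real.rpow_natCast ((N : ℝ) ^ σ) 2
          rw [h5]
          have h6 : 1 ≤ 4 * ((N : ℝ) ^ 2 / ((N : ℝ) ^ σ) ^ 2) := by
            rw [mul_div_assoc', le_div_iff₀ (by positivity), one_mul]
            have h7 : 0 ≤ (N : ℝ) ^ σ := by positivity
            calc ((N : ℝ) ^ σ) ^ 2 ≤ (2 * (N : ℝ)) ^ 2 := pow_le_pow_left₀ h7 h3 2
              _ = 4 * (N : ℝ) ^ 2 := by ring
          have h8 : 0 ≤ (N : ℝ) ^ 2 / ((N : ℝ) ^ σ) ^ 2 := by positivity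
          nlinarith
        have h5 : R ≤ (N₀ : ℝ) ^ A := by
          refine hW.trans (Real.rpow_le_rpow hN0.le ?_ hA)
          exact_mod_cast hNN.le
        calc R ≤ (N₀ : ℝ) ^ A * 1 := by linarith
          _ ≤ (N₀ : ℝ) ^ A * (4 * (N : ℝ) ^ (2 - 2 * σ + ε)) :=
              mul_le_mul_of_nonneg_left h4 hN₀A
          _ = 4 * (N₀ : ℝ) ^ A * (N : ℝ) ^ (2 - 2 * σ + ε) := by ring
          _ ≤ K * (N : ℝ) ^ (2 - 2 * σ + ε) := mul_le_mul_of_nonneg_right hKN hX0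

end Pool.Agent.Y959.Gen
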